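import Pool.Agent.Lib_MP_ff27c1_w.Tup

/-!
# MP_ff27c1_an: primes in clusters

`Crit S` is the combinatorial criterion of `Lib_MP_ff27c1_an`. `clusters A w` are the primes `p` with more than `A` primes in
`[p, p + w p]`. If `w` tends to infinity then the primes outside of `clusters A w` satisfy the criterion, and the primes satisfy it iff
`clusters A w` does; if `w` tends to infinity slowly then there are at most `x / (log x) ^ A` elements of `clusters A w` up to `x`.
-/

set_option autoImplicit false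

namespace Pool.Agent.Lib_MP_ff27c1_w

open Finset Filter

/-- the combinatorial criterion -/
def Crit (S : Set ℕ) : Prop :=
  ∀ a : ℕ → ℕ, (∀ i, 0 < a i) → ∃ m : ℕ, {n : ℕ | ∀ t ⊆ range m, n + ∑ i ∈ t, a i ∈ S}.Finite

/-- the primes `p` such that there are more than `A` primes in `[p, p + w p]` -/
def clusters (A : ℕ) (w : ℕ → ℕ) : Set ℕ :=
  {p : ℕ | p.Prime ∧ A < ((Icc p (p + w p)).filter Nat.Prime).card}

theorem Crit.mono {S S' : Set ℕ} (h : Crit S') (hS : S ⊆ S') : Crit S := by
  intro a ha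
  obtain ⟨m, hm⟩ := h a ha
  exact ⟨m, hm.subset fun n hn t ht => hS (hn t ht)⟩

/-- many primes in a window -/
private lemma mem_of_chain {A : ℕ} {w : ℕ → ℕ} {s : ℕ} {b : ℕ → ℕ} (hb : StrictMono b) (h0 : b 0 = 0)
    (hp : ∀ j ≤ A, (s + b j).Prime) (hw : b A ≤ w s) : s ∈ clusters A w := by
  refine ⟨by simpa [h0] using hp 0 (Nat.zero_le _), ?_⟩
  have h1 : (range (A + 1)).card ≤ ((Icc s (s + w s)).filter Nat.Prime).card := by
    refine card_le_card_of_injOn (fun j => s + b j) ?_ ?_
    · intro j hj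
      have hj' : j ≤ A := by
        have := mem_range.1 (mem_coe.1 hj)
        omega
      have h2 : b j ≤ b A := hb.monotone hj'
      have h3 : s ≤ s + b j := Nat.le_add_right _ _
      have h4 : s + b j ≤ s + w s := by omega
      exact mem_coe.2 (mem_filter.2 ⟨mem_Icc.2 ⟨h3, h4⟩, hp j hj'⟩)
    · intro i _ j _ hij
      exact hb.injective (by simpa using hij)
  rw [card_range] at h1
  omega

private lemma strictMono_sum {a : ℕ → ℕ} (ha : ∀ i, 0 < a i) (m : ℕ) :
    StrictMono fun j => ∑ i ∈ Ico m (m + j), a i := by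
  refine strictMono_nat_of_lt_succ fun j => ?_
  have : ∑ i ∈ Ico m (m + (j + 1)), a i = ∑ i ∈ Ico m (m + j), a i + a (m + j) := by
    rw [← add_assoc, sum_Ico_succ_top (by omega)]
  rw [this]
  have := ha (m + j)
  omega

theorem crit_diff (A : ℕ) {w : ℕ → ℕ} (hw : Tendsto w atTop atTop) :
    Crit ({p : ℕ | p.Prime} \ clusters A w) := by
  intro a ha
  refine ⟨A, ?_⟩
  set b : ℕ → ℕ := fun j => ∑ i ∈ Ico 0 (0 + j), a i with hb
  have hbm : StrictMono b := strictMono_sum ha 0
  obtain ⟨N, hN⟩ := eventually_atTop.1 (hw.eventually_ge_atTop (b A))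
  refine (Set.finite_Iio N).subset fun n hn => ?_
  by_contra hc
  have h1 := hN n (not_lt.1 hc)
  have h2 := hn ∅ (empty_subset _)
  rw [sum_empty, add_zero] at h2
  refine h2.2 (mem_of_chain hbm (by simp [hb]) (fun j hj => ?_) h1)
  have h3 := hn (Ico 0 (0 + j)) (fun i hi => by
    have := (mem_Ico.1 hi).2
    exact mem_range.2 (by omega))
  exact h3.1

theorem crit_iff (A : ℕ) {w : ℕ → ℕ} (hw : Tendsto w atTop atTop) :
    Crit {p : ℕ | p.Prime} ↔ Crit (clusters A w) := by
  refine ⟨fun h => h.mono fun p hp => hp.1, fun h a ha => ?_⟩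
  obtain ⟨m, hm⟩ := h a ha
  set b : ℕ → ℕ := fun j => ∑ i ∈ Ico m (m + j), a i with hb
  have hbm : StrictMono b := strictMono_sum ha m
  obtain ⟨N, hN⟩ := eventually_atTop.1 (hw.eventually_ge_atTop (b A))
  refine ⟨m + A, ((Set.finite_Iio N).union hm).subset fun n hn => ?_⟩
  by_cases hnN : n < N
  · exact Or.inl hnN
  refine Or.inr fun t ht => ?_
  have hs : N ≤ n + ∑ i ∈ t, a i := (not_lt.1 hnN).trans (Nat.le_add_right _ _)
  refine mem_of_chain hbm (by simp [hb]) (fun j hj => ?_) (hN _ hs)
  have hdis : Disjoint t (Ico m (m + j)) := by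
    rw [disjoint_left]
    intro i hi hi'
    have h1 := mem_range.1 (ht hi)
    have h2 := (mem_Ico.1 hi').1
    omega
  have h3 := hn (t ∪ Ico m (m + j)) (union_subset (ht.trans (range_subset_range.2 (by omega)))
    fun i hi => by
      have := (mem_Ico.1 hi).2
      exact mem_range.2 (by omega))
  rw [sum_union hdis, ← add_assoc] at h3
  exact h3

/-! ### Counting -/

/-- the number of primes up to `x` with more than `A` primes in `[p, p + W]` -/
private def cnt (A W x : ℕ) : ℕ :=
  ((range (x + 1)).filter fun p => p.Prime ∧ A < ((Icc p (p + W)).filter Nat.Prime).card).card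

private lemma cnt_le (A W x : ℕ) :
    cnt A W x ≤ ∑ H ∈ (Icc 1 W).powersetCard A, tcount (insert 0 H) x := by
  classical
  have hsub : ((range (x + 1)).filter fun p => p.Prime ∧ A < ((Icc p (p + W)).filter Nat.Prime).card) ⊆
      ((Icc 1 W).powersetCard A).biUnion fun H =>
        (range (x + 1)).filter fun n => ∀ h ∈ insert 0 H, (n + h).Prime := by
    intro p hp
    rw [mem_filter] at hp
    obtain ⟨hpx, hpp, hcard⟩ := hp
    set G : Finset ℕ := (Icc 1 W).filter fun h => (p + h).Prime with hG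
    have h1 : (Icc p (p + W)).filter Nat.Prime ⊆ insert p (G.image fun h => p + h) := by
      intro r hr
      rw [mem_filter, mem_Icc] at hr
      by_cases hrp : r = p
      · exact mem_insert.2 (Or.inl hrp)
      · refine mem_insert.2 (Or.inr (mem_image.2 ⟨r - p, mem_filter.2 ⟨mem_Icc.2 ⟨by omega, by omega⟩, ?_⟩,
          by omega⟩))
        have : p + (r - p) = r := by omega
        rw [this]
        exact hr.2
    have h2 : A ≤ G.card := by
      have h3 := card_le_card h1
      have h4 := card_insert_le p (G.image fun h => p + h)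
      have h5 : (G.image fun h => p + h).card ≤ G.card := card_image_le
      omega
    obtain ⟨H, hHG, hHc⟩ := exists_subset_card_eq h2
    refine mem_biUnion.2 ⟨H, mem_powersetCard.2 ⟨hHG.trans (filter_subset _ _), hHc⟩,
      mem_filter.2 ⟨hpx, fun h hh => ?_⟩⟩
    rcases mem_insert.1 hh with h0 | h0
    · rw [h0, add_zero]; exact hpp
    · exact (mem_filter.1 (hHG h0)).2
  exact (card_le_card hsub).trans card_biUnion_le

private lemma cnt_small (A W : ℕ) : ∃ x₁ : ℕ, ∀ x ≥ x₁, (cnt A W x : ℝ) * Real.log x ^ A ≤ x := by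
  classical
  choose C hC x₀ hx₀ using fun H : Finset ℕ => tuple_upper (insert 0 H)
  set F := (Icc 1 W).powersetCard A with hF
  set Ct : ℝ := ∑ H ∈ F, C H with hCt
  have hCt0 : 0 ≤ Ct := sum_nonneg fun H _ => (hC H).le
  obtain ⟨x₂, hx₂⟩ := exists_nat_ge (Real.exp (Ct + 1))
  refine ⟨max (F.sup x₀) x₂, fun x hx => ?_⟩
  have hxs : ∀ H ∈ F, x₀ H ≤ x := fun H hH => (Finset.le_sup hH).trans ((le_max_left _ _).trans hx)
  have hxe : Real.exp (Ct + 1) ≤ x := hx₂.trans (by exact_mod_cast (le_max_right _ _).trans hx)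
  have hx0 : (0 : ℝ) < x := (Real.exp_pos _).trans_le hxe
  have hlog : Ct + 1 ≤ Real.log x := by
    rw [Real.le_log_iff_exp_le hx0]
    exact hxe
  have hlog0 : 0 < Real.log x := by linarith
  have h1 : (cnt A W x : ℝ) * Real.log x ^ (A + 1) ≤ Ct * x := by
    have h2 : (cnt A W x : ℝ) ≤ ∑ H ∈ F, (tcount (insert 0 H) x : ℝ) := by
      exact_mod_cast cnt_le A W x
    calc (cnt A W x : ℝ) * Real.log x ^ (A + 1)
        ≤ (∑ H ∈ F, (tcount (insert 0 H) x : ℝ)) * Real.log x ^ (A + 1) :=
          mul_le_mul_of_nonneg_right h2 (by positivity)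
      _ = ∑ H ∈ F, (tcount (insert 0 H) x : ℝ) * Real.log x ^ (A + 1) := sum_mul _ _ _
      _ ≤ ∑ H ∈ F, C H * x := by
          refine sum_le_sum fun H hH => ?_
          have h3 := hx₀ H x (hxs H hH)
          have h4 : (insert 0 H).card = A + 1 := by
            rw [card_insert_of_notMem, (mem_powersetCard.1 hH).2]
            intro h0
            have := (mem_Icc.1 ((mem_powersetCard.1 hH).1 h0)).1
            omega
          rwa [h4] at h3
      _ = Ct * x := by rw [hCt, sum_mul]
  have h5 : (cnt A W x : ℝ) * Real.log x ^ A * Real.log x ≤ x * Real.log x := by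
    calc (cnt A W x : ℝ) * Real.log x ^ A * Real.log x = (cnt A W x : ℝ) * Real.log x ^ (A + 1) := by ring
      _ ≤ Ct * x := h1
      _ ≤ Real.log x * x := mul_le_mul_of_nonneg_right (by linarith) hx0.le
      _ = x * Real.log x := mul_comm _ _
  exact le_of_mul_le_mul_right h5 hlog0

theorem exists_slow (A : ℕ) (hA : 1 ≤ A) : ∃ w : ℕ → ℕ, Tendsto w atTop atTop ∧ ∀ x : ℕ, 2 ≤ x →
    (({p : ℕ | p ≤ x ∧ p ∈ clusters A w}.ncard : ℕ) : ℝ) ≤ x / Real.log x ^ A := by
  classical
  choose g hg using cnt_small A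
  set G : ℕ → ℕ := fun W => (range (W + 1)).sup g with hG
  have hgG : ∀ W, g W ≤ G W := fun W => Finset.le_sup (f := g) (mem_range.2 (Nat.lt_succ_self W))
  set w : ℕ → ℕ := fun n => Nat.findGreatest (fun W => G W ≤ n) n with hw
  have hmono : Monotone w := fun m n hmn =>
    Nat.findGreatest_mono (fun W (hW : G W ≤ m) => hW.trans hmn) hmn
  have hlim : Tendsto w atTop atTop := by
    refine tendsto_atTop.2 fun W => ?_
    filter_upwards [eventually_ge_atTop (max (G W) W)] with n hn
    exact Nat.le_findGreatest ((le_max_right _ _).trans hn) ((le_max_left _ _).trans hn)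
  refine ⟨w, hlim, fun x hx => ?_⟩
  have hx1 : (1 : ℝ) < x := by exact_mod_cast (by omega : 1 < x)
  have hlog : 0 < Real.log x := Real.log_pos hx1
  rw [le_div_iff₀ (pow_pos hlog A)]
  have hset : ∀ W, w x ≤ W → {p : ℕ | p ≤ x ∧ p ∈ clusters A w}.ncard ≤ cnt A W x := by
    intro W hW
    unfold cnt
    rw [← Set.ncard_coe_finset]
    refine Set.ncard_le_ncard ?_ (Finset.finite_toSet _)
    rintro p ⟨hp1, hp2, hp3⟩
    refine mem_coe.2 (mem_filter.2 ⟨mem_range.2 (by omega), hp2, hp3.trans_le (card_le_card ?_)⟩)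
    refine filter_subset_filter _ (Icc_subset_Icc le_rfl ?_)
    have := hmono hp1
    omega
  by_cases h0 : w x = 0
  · have hz : {p : ℕ | p ≤ x ∧ p ∈ clusters A w} = ∅ := by
      ext p
      simp only [Set.mem_ofPred_eq, Set.mem_empty_iff_false, iff_false, not_and]
      rintro hp1 ⟨hp2, hp3⟩
      have hwp : w p = 0 := by
        have := hmono hp1
        omega
      rw [hwp, add_zero, Icc_self] at hp3
      have := card_filter_le {p} Nat.Prime
      rw [card_singleton] at this
      omega
    rw [hz, Set.ncard_empty]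
    simp
  · have hspec : G (w x) ≤ x :=
      Nat.findGreatest_of_ne_zero (P := fun W => G W ≤ x) (n := x) rfl h0
    have h1 := hg (w x) x ((hgG _).trans hspec)
    refine le_trans (mul_le_mul_of_nonneg_right ?_ (by positivity)) h1
    exact_mod_cast hset (w x) le_rfl

end Pool.Agent.Lib_MP_ff27c1_w
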