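import Pool.Agent.Lib_MP_a95293_rc.SvU
import Pool.Agent.Lib_MP_a95293_rc.SvM

/-!
# MP_ff27c1_an: upper bound for the number of prime tuples of a fixed shape

From the upper bound sieve of `Lib_MP_a95293_rc`: for every finite `H` with `k` elements the number of `n ≤ x` such that all `n + h`
(`h ∈ H`) are prime is `O(x / (log x) ^ k)`.
-/

set_option autoImplicit false

namespace Pool.Agent.Lib_MP_ff27c1_w

open Finset Pool.Agent.OmAP Pool.MP_a95293_nt.RC

/-- the number of `n ≤ x` with `n + h` prime for all `h ∈ H` -/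
def tcount (H : Finset ℕ) (x : ℕ) : ℕ := ((range (x + 1)).filter fun n => ∀ h ∈ H, (n + h).Prime).card

/-- the forbidden classes -/
private def cls (H : Finset ℕ) (p : ℕ) : Finset ℕ := H.image fun h => (p - h % p) % p

private lemma cls_sub (H : Finset ℕ) {p : ℕ} (hp : 0 < p) : cls H p ⊆ range p := by
  intro t ht
  obtain ⟨h, _, rfl⟩ := mem_image.1 ht
  exact mem_range.2 (Nat.mod_lt _ hp)

private lemma cls_card (H : Finset ℕ) {p : ℕ} (hp : ∀ h ∈ H, h < p) : (cls H p).card = H.card := by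
  refine card_image_of_injOn ?_
  intro a ha b hb hab
  have h1 := hp a ha
  have h2 := hp b hb
  simp only [Nat.mod_eq_of_lt h1, Nat.mod_eq_of_lt h2] at hab
  rcases Nat.eq_zero_or_pos a with ha0 | ha0 <;> rcases Nat.eq_zero_or_pos b with hb0 | hb0
  · omega
  · rw [ha0, Nat.sub_zero, Nat.mod_self, Nat.mod_eq_of_lt (by omega)] at hab; omega
  · rw [hb0, Nat.sub_zero, Nat.mod_self, Nat.mod_eq_of_lt (by omega)] at hab; omega
  · rw [Nat.mod_eq_of_lt (by omega), Nat.mod_eq_of_lt (by omega)] at hab; omega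

private lemma cls_dvd {H : Finset ℕ} {p t : ℕ} (hp : 0 < p) (h : t % p ∈ cls H p) :
    ∃ a ∈ H, p ∣ t + a := by
  obtain ⟨a, ha, hab⟩ := mem_image.1 h
  refine ⟨a, ha, ?_⟩
  have h1 : (t + a) ≡ 0 [MOD p] := by
    have h2 : t ≡ p - a % p [MOD p] := by
      show t % p = (p - a % p) % p
      exact hab.symm
    have h3 : t + a ≡ (p - a % p) + a % p [MOD p] := h2.add (Nat.mod_modEq a p).symm
    rw [Nat.sub_add_cancel (Nat.mod_lt a hp).le] at h3
    exact h3.trans (by simp [Nat.ModEq])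
  exact (Nat.modEq_zero_iff_dvd).1 h1

/-- the product over the sieving primes -/
private lemma prod_le (K k : ℕ) : ∃ B : ℝ, 0 < B ∧ ∀ z : ℕ, 2 ≤ z →
    ∏ p ∈ PP K z, (1 - (k : ℝ) / p) ≤ B / Real.log z ^ k ∨ ∃ p ∈ PP K z, (p : ℝ) < k := by
  set S : Finset ℕ := (Icc 1 (2 * K)).filter Nat.Prime with hS
  have hfac : ∀ p : ℕ, p.Prime → 0 < 1 - 1 / (p : ℝ) ∧ 1 - 1 / (p : ℝ) ≤ 1 := by
    intro p hp
    have h2 : (2 : ℝ) ≤ p := by exact_mod_cast hp.two_le
    have : 1 / (p : ℝ) ≤ 1 / 2 := one_div_le_one_div_of_le (by norm_num) h2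
    have h3 : 0 < 1 / (p : ℝ) := by positivity
    constructor <;> linarith
  have hP0 : 0 < ∏ p ∈ S, (1 - 1 / (p : ℝ)) :=
    prod_pos fun p hp => (hfac p (mem_filter.1 hp).2).1
  refine ⟨((∏ p ∈ S, (1 - 1 / (p : ℝ)))⁻¹) ^ k, pow_pos (inv_pos.2 hP0) k, fun z hz => ?_⟩
  by_cases hk : ∃ p ∈ PP K z, (p : ℝ) < k
  · exact Or.inr hk
  push Not at hk
  left
  have hlog : 0 < Real.log z := Real.log_pos (by exact_mod_cast (by omega : 1 < z))
  have h1 : ∏ p ∈ PP K z, (1 - (k : ℝ) / p) ≤ ∏ p ∈ PP K z, (1 - 1 / (p : ℝ)) ^ k := by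
    refine prod_le_prod (fun p hp => ?_) fun p hp => ?_
    · have hp1 := (mem_PP.1 hp).2
      have : (0 : ℝ) < p := by exact_mod_cast hp1.pos
      have h2 : (k : ℝ) / p ≤ 1 := (div_le_one this).2 (hk p hp)
      linarith
    · have hp1 := (mem_PP.1 hp).2
      have h3 := one_add_mul_le_pow (a := -(1 / (p : ℝ))) (by
        have := (hfac p hp1).2
        have := (hfac p hp1).1
        linarith) k
      have e : (1 : ℝ) - k / p = 1 + k * -(1 / (p : ℝ)) := by ring
      have e' : (1 : ℝ) - 1 / p = 1 + -(1 / (p : ℝ)) := by ring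
      rw [e, e']
      exact h3
  have h2 : ∏ p ∈ PP K z, (1 - 1 / (p : ℝ)) ≤ (∏ p ∈ S, (1 - 1 / (p : ℝ)))⁻¹ * (1 / Real.log z) := by
    have h3 := mertens_up z hz
    have h4 : (∏ p ∈ S, (1 - 1 / (p : ℝ))) * ∏ p ∈ PP K z, (1 - 1 / (p : ℝ))
        ≤ ∏ p ∈ (Icc 1 z).filter Nat.Prime, (1 - 1 / (p : ℝ)) := by
      have hdis : Disjoint S (PP K z) := by
        rw [disjoint_left]
        intro p hp hp'
        have h5 := (mem_Icc.1 (mem_filter.1 hp).1).2
        have h6 := (mem_PP.1 hp').1.1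
        omega
      have hsub : (Icc 1 z).filter Nat.Prime ⊆ S ∪ PP K z := by
        intro p hp
        rw [mem_filter, mem_Icc] at hp
        by_cases h7 : p ≤ 2 * K
        · exact mem_union_left _ (mem_filter.2 ⟨mem_Icc.2 ⟨hp.1.1, h7⟩, hp.2⟩)
        · exact mem_union_right _ (mem_PP.2 ⟨⟨by omega, hp.1.2⟩, hp.2⟩)
      have hprime : ∀ p ∈ S ∪ PP K z, p.Prime := by
        intro p hp
        rcases mem_union.1 hp with h | h
        · exact (mem_filter.1 h).2
        · exact (mem_PP.1 h).2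
      rw [← prod_union hdis, ← prod_sdiff hsub]
      refine mul_le_of_le_one_left (prod_nonneg fun p hp => (hfac p (hprime p (hsub hp))).1.le) ?_
      refine prod_le_one (fun p hp => (hfac p (hprime p (mem_sdiff.1 hp).1)).1.le) fun p hp => ?_
      exact (hfac p (hprime p (mem_sdiff.1 hp).1)).2
    rw [inv_mul_eq_div, le_div_iff₀ hP0, mul_comm]
    exact h4.trans h3
  have h0 : 0 ≤ ∏ p ∈ PP K z, (1 - 1 / (p : ℝ)) :=
    prod_nonneg fun p hp => (hfac p (mem_PP.1 hp).2).1.le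
  calc ∏ p ∈ PP K z, (1 - (k : ℝ) / p) ≤ ∏ p ∈ PP K z, (1 - 1 / (p : ℝ)) ^ k := h1
    _ = (∏ p ∈ PP K z, (1 - 1 / (p : ℝ))) ^ k := prod_pow _ _ _
    _ ≤ ((∏ p ∈ S, (1 - 1 / (p : ℝ)))⁻¹ * (1 / Real.log z)) ^ k := pow_le_pow_left₀ h0 h2 k
    _ = _ := by rw [mul_pow, one_div, inv_pow, inv_pow, div_eq_mul_inv]

theorem tuple_upper (H : Finset ℕ) : ∃ C : ℝ, 0 < C ∧ ∃ x₀ : ℕ, ∀ x ≥ x₀,
    (tcount H x : ℝ) * Real.log x ^ H.card ≤ C * x := by
  set k : ℕ := H.card with hk
  set K : ℕ := H.card + H.sup id + 1 with hK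
  obtain ⟨Cs, hCs⟩ := sieve_count_up K
  obtain ⟨B, hB0, hB⟩ := prod_le K k
  set D : ℕ := Cs + 2 with hD
  have hD0 : (0 : ℝ) < D := by positivity
  refine ⟨2 * ((2 * (D : ℝ)) ^ k * k.factorial) + 8 * B * (2 * (D : ℝ)) ^ k, by positivity,
    2 ^ D, fun x hx => ?_⟩
  have hx1 : 1 ≤ x := le_trans Nat.one_le_two_pow hx
  have hxR : (1 : ℝ) ≤ x := by exact_mod_cast hx1
  -- the sieving level
  obtain ⟨z, hz1, hz2⟩ : ∃ z : ℕ, z ^ D ≤ x ∧ x < (z + 1) ^ D := by
    set P : ℕ → Prop := fun z => z ^ D ≤ x with hP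
    have h0 : P 0 := by simp only [hP, hD]; positivity
    refine ⟨Nat.findGreatest P x, Nat.findGreatest_spec (P := P) (Nat.zero_le x) h0, ?_⟩
    by_contra hc
    rw [not_lt] at hc
    have h1 : Nat.findGreatest P x + 1 ≤ x :=
      (Nat.le_self_pow (by omega) _).trans hc
    have h2 := Nat.le_findGreatest (P := P) h1 hc
    omega
  have hz : 2 ≤ z := by
    by_contra hc
    have h1 : (z + 1) ^ D ≤ 2 ^ D := Nat.pow_le_pow_left (by omega) D
    omega
  have hzR : (2 : ℝ) ≤ z := by exact_mod_cast hz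
  have hlz : 0 < Real.log z := Real.log_pos (by linarith)
  have hlx : Real.log x ≤ 2 * D * Real.log z := by
    have h1 : (x : ℝ) ≤ ((z : ℝ) + 1) ^ D := by exact_mod_cast hz2.le
    have h2 : Real.log x ≤ D * Real.log ((z : ℝ) + 1) := by
      rw [← Real.log_pow]
      exact Real.log_le_log (by linarith) h1
    have h3 : Real.log ((z : ℝ) + 1) ≤ 2 * Real.log z := by
      have : Real.log ((z : ℝ) ^ 2) = 2 * Real.log z := by rw [Real.log_pow]; norm_num
      rw [← this]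
      exact Real.log_le_log (by linarith) (by nlinarith)
    nlinarith
  have hlx0 : 0 ≤ Real.log x := Real.log_nonneg hxR
  have hlk : Real.log x ^ k ≤ (2 * (D : ℝ)) ^ k * Real.log z ^ k := by
    rw [← mul_pow]
    exact pow_le_pow_left₀ hlx0 hlx k
  -- the sieve
  have hPH : ∀ p ∈ PP K z, ∀ h ∈ H, h < p := by
    intro p hp h hh
    have h1 := (mem_PP.1 hp).1.1
    have h2 : h ≤ H.sup id := Finset.le_sup (f := id) hh
    omega
  have hsv := hCs z (x + 1) hz (by
    calc z ^ Cs ≤ z ^ D := Nat.pow_le_pow_right (by omega) (by omega)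
      _ ≤ x + 1 := by omega) (cls H) (fun p hp =>
        ⟨by rw [cls_card H (hPH p hp)]; omega, cls_sub H (mem_PP.1 hp).2.pos⟩)
  have hprod : ∏ p ∈ PP K z, (1 - ((cls H p).card : ℝ) / p) = ∏ p ∈ PP K z, (1 - (k : ℝ) / p) :=
    prod_congr rfl fun p hp => by rw [cls_card H (hPH p hp)]
  rw [hprod] at hsv
  have hBz : ∏ p ∈ PP K z, (1 - (k : ℝ) / p) ≤ B / Real.log z ^ k := by
    rcases hB z hz with h | ⟨p, hp, hlt⟩
    · exact h
    · exfalso
      have h1 := (mem_PP.1 hp).1.1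
      have h2 : p < k := by exact_mod_cast hlt
      omega
  have hcount : tcount H x ≤ (z + 1) +
      ((range (x + 1)).filter fun t => ∀ p ∈ PP K z, t % p ∉ cls H p).card := by
    have hsub : ((range (x + 1)).filter fun n => ∀ h ∈ H, (n + h).Prime) ⊆
        range (z + 1) ∪ (range (x + 1)).filter fun t => ∀ p ∈ PP K z, t % p ∉ cls H p := by
      intro n hn
      rw [mem_filter] at hn
      by_cases hnz : n < z + 1
      · exact mem_union_left _ (mem_range.2 hnz)
      · refine mem_union_right _ (mem_filter.2 ⟨hn.1, fun p hp hc => ?_⟩)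
        have hpp := mem_PP.1 hp
        obtain ⟨a, ha, hdvd⟩ := cls_dvd hpp.2.pos hc
        have h1 := (Nat.prime_dvd_prime_iff_eq hpp.2 (hn.2 a ha)).1 hdvd
        have h2 := hpp.1.2
        omega
    refine (card_le_card hsub).trans ((card_union_le _ _).trans ?_)
    rw [card_range]
  have hcR : (tcount H x : ℝ) ≤ ((z : ℝ) + 1) + 4 * ((x : ℝ) + 1) * (B / Real.log z ^ k) := by
    have h1 : (tcount H x : ℝ) ≤ ((z : ℝ) + 1) +
        (((range (x + 1)).filter fun t => ∀ p ∈ PP K z, t % p ∉ cls H p).card : ℝ) := by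
      exact_mod_cast hcount
    have h2 : 4 * (((x + 1 : ℕ) : ℝ)) * ∏ p ∈ PP K z, (1 - (k : ℝ) / p)
        ≤ 4 * ((x : ℝ) + 1) * (B / Real.log z ^ k) := by
      push_cast
      exact mul_le_mul_of_nonneg_left hBz (by linarith)
    linarith
  have hzx : (z : ℝ) * z ≤ x := by
    have h1 : z * z ≤ x := by
      calc z * z = z ^ 2 := (sq z).symm
        _ ≤ z ^ D := Nat.pow_le_pow_right (by omega) (by omega)
        _ ≤ x := hz1
    exact_mod_cast h1
  have hlzk : Real.log z ^ k ≤ k.factorial * (z : ℝ) := by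
    have h1 := Real.pow_div_factorial_le_exp (Real.log z) hlz.le k
    rw [Real.exp_log (by linarith), div_le_iff₀ (by positivity)] at h1
    linarith
  have hlzk0 : 0 < Real.log z ^ k := pow_pos hlz k
  calc (tcount H x : ℝ) * Real.log x ^ k
      ≤ (((z : ℝ) + 1) + 4 * ((x : ℝ) + 1) * (B / Real.log z ^ k)) *
          ((2 * (D : ℝ)) ^ k * Real.log z ^ k) :=
        mul_le_mul hcR hlk (by positivity) (by positivity)
    _ = ((z : ℝ) + 1) * ((2 * (D : ℝ)) ^ k * Real.log z ^ k) +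
          4 * ((x : ℝ) + 1) * (B * (2 * (D : ℝ)) ^ k) := by field_simp
    _ ≤ (2 * (z : ℝ)) * ((2 * (D : ℝ)) ^ k * (k.factorial * (z : ℝ))) +
          4 * (2 * (x : ℝ)) * (B * (2 * (D : ℝ)) ^ k) := by
        refine add_le_add ?_ ?_
        · refine mul_le_mul (by linarith) (mul_le_mul_of_nonneg_left hlzk (by positivity))
            (by positivity) (by linarith)
        · refine mul_le_mul_of_nonneg_right (by linarith) (by positivity)
    _ = 2 * ((2 * (D : ℝ)) ^ k * k.factorial) * ((z : ℝ) * z) + 8 * B * (2 * (D : ℝ)) ^ k * x := by ring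
    _ ≤ 2 * ((2 * (D : ℝ)) ^ k * k.factorial) * x + 8 * B * (2 * (D : ℝ)) ^ k * x :=
        add_le_add (mul_le_mul_of_nonneg_left hzx (by positivity)) le_rfl
    _ = _ := by ring

end Pool.Agent.Lib_MP_ff27c1_w
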